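import Pool.Agent.Helper54.PT.DefsD

set_option autoImplicit false

namespace Pool.Agent.Helper54.PT

open Polynomial Finset Filter Topology Module Pool.Agent.Helper47.BSD

universe u

variable {ℓ : ℕ} {ι : Type} [Fintype ι] [DecidableEq ι] {a : ι → ℕ}

omit [DecidableEq ι] in
/-- C3a: the relation -/
theorem prod_pow_of_mem {K : Type u} [Field K] {e : ι → K} {d : ι → Kˣ}
    (hd : d ∈ descentGroup ℓ a e) : ∃ y : K, ∏ i, (d i : K) ^ a i = y ^ ℓ := by
  unfold descentGroup at hd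
  induction hd using Subgroup.closure_induction with
  | mem d hd =>
    rcases hd with hd | ⟨c, rfl⟩
    · obtain ⟨L, _, _, _, x, y, hy, hxy, hdi⟩ := hd
      refine ⟨Algebra.norm K y, ?_⟩
      rw [← map_pow, hxy, map_prod]
      exact prod_congr rfl fun i _ => by rw [hdi i, map_pow]
    · refine ⟨∏ i, (c i : K) ^ a i, ?_⟩
      rw [← prod_pow]
      refine prod_congr rfl fun i _ => ?_
      show ((c i ^ ℓ : Kˣ) : K) ^ a i = _
      rw [Units.val_pow_eq_pow_val, ← pow_mul, ← pow_mul, mul_comm]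
  | one => exact ⟨1, by simp⟩
  | mul d d' _ _ h1 h2 =>
    obtain ⟨y, hy⟩ := h1
    obtain ⟨y', hy'⟩ := h2
    refine ⟨y * y', ?_⟩
    rw [mul_pow, ← hy, ← hy', ← prod_mul_distrib]
    exact prod_congr rfl fun i _ => by rw [Pi.mul_apply, Units.val_mul, mul_pow]
  | inv d _ h1 =>
    obtain ⟨y, hy⟩ := h1
    refine ⟨y⁻¹, ?_⟩
    rw [inv_pow, ← hy, ← prod_inv_distrib]
    exact prod_congr rfl fun i _ => by rw [Pi.inv_apply, Units.val_inv_eq_inv_val, inv_pow]

end Pool.Agent.Helper54.PT
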