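import Pool.Agent.Helper2.TW.C2a

set_option autoImplicit false

namespace Pool.Agent.Helper54.PT

open Polynomial Finset Filter Topology Module Pool.Agent.Helper47.BSD IntermediateField

universe u

variable {k : Type u} [NontriviallyNormedField k] [IsUltrametricDist k] [CompleteSpace k]
  {ℓ : ℕ} {π : k}

/-- C2c: norms from extensions containing an unramified extension of degree `ℓ` (uses C2a) -/
theorem norm_unram (hℓ : ℓ.Prime) (hk : LF ℓ π) {L : Type u} [Field L] [Algebra k L]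
    [FiniteDimensional k L] (c : k) (hc : ‖c‖ = 1) (hc' : ¬ ∃ x : k, x ^ ℓ = c)
    (hL : ∃ θ : L, θ ^ ℓ = algebraMap k L c) (z : L) (hz : z ≠ 0) :
    ∃ y : k, y ≠ 0 ∧ ‖Algebra.norm k z‖ = ‖y‖ ^ ℓ := by
  obtain ⟨θ, hθ⟩ := hL
  have hirr : Irreducible (X ^ ℓ - C c : k[X]) :=
    X_pow_sub_C_irreducible_of_prime hℓ (fun b hb => hc' ⟨b, hb⟩)
  have hmin : X ^ ℓ - C c = minpoly k θ :=
    minpoly.eq_of_irreducible_of_monic hirr (by simp [hθ]) (monic_X_pow_sub_C c hℓ.ne_zero)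
  have hint : IsIntegral k θ := Algebra.IsIntegral.isIntegral θ
  have hfin : finrank k k⟮θ⟯ = ℓ := by
    rw [adjoin.finrank hint, ← hmin, natDegree_X_pow_sub_C]
  have hz' : Algebra.norm k⟮θ⟯ z ≠ 0 := Algebra.norm_ne_zero_iff.2 hz
  obtain ⟨y, hy, hyz⟩ := value_group_adjoin θ ℓ hℓ.ne_zero hk.norm_ell c hc hθ
    (Algebra.norm k⟮θ⟯ z : L) (Algebra.norm k⟮θ⟯ z).2 (by
      intro h
      exact hz' (Subtype.ext h))
  refine ⟨y, hy, ?_⟩
  have h1 : specAbs k L (Algebra.norm k⟮θ⟯ z : L) = specAbs k k⟮θ⟯ (Algebra.norm k⟮θ⟯ z) := by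
    show spectralValue (minpoly k _) = spectralValue (minpoly k _)
    rw [minpoly_eq]
  rw [← Algebra.norm_norm (R := k) (S := k⟮θ⟯) (a := z), norm_norm_eq, hfin, ← h1, hyz]

end Pool.Agent.Helper54.PT
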