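import Pool.Agent.Helper13.TW.StD

/-!
# Project TW, module SIM: from a closed chain of small arcs to a simple closed curve
-/

set_option autoImplicit false

namespace Pool.Agent.Helper2.TW

open Set Topology Pool.Agent.Helper13.TR Pool.Agent.Helper13.TW

namespace Sim

variable {S : Type} [MetricSpace S]

/-- small arc or point with a chain -/
structure GA (Q : Set S) (ρ : ℝ) (D : Set S) (p q : S) (d : Ch S 1) : Prop where
  arc : IsArc D p q ∨ (D = {p} ∧ p = q)
  sub : D ⊆ Q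
  dia : Metric.diam D < ρ
  mem : d ∈ cin D 1
  bdy : bd 0 d = Finsupp.single (pt q) 1 - Finsupp.single (pt p) 1

/-- walks of small arcs -/
inductive Wk (Q : Set S) (ρ : ℝ) : ℕ → S → S → Ch S 1 → Prop
  | nil (p : S) : Wk Q ρ 0 p p 0
  | cons (n : ℕ) (p q r : S) (D : Set S) (d c : Ch S 1) : GA Q ρ D p q d → Wk Q ρ n q r c →
      Wk Q ρ (n + 1) p r (d + c)

variable {Q : Set S} {ρ : ℝ}

private lemma cin_mono (hMON : StMON) {A B : Set S} (h : A ⊆ B) {c : Ch S 1} (hc : c ∈ cin A 1) :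
    c ∈ cin B 1 := (hMON S).1 A B 1 h hc

private lemma Wk.one {D : Set S} {p q : S} {d : Ch S 1} (h : GA Q ρ D p q d) : Wk Q ρ 1 p q d := by
  have := Wk.cons 0 p q q D d 0 h (Wk.nil q)
  simpa using this

private lemma Wk.app {n m : ℕ} {p q r : S} {c c' : Ch S 1} (h : Wk Q ρ n p q c) (h' : Wk Q ρ m q r c') :
    Wk Q ρ (n + m) p r (c + c') := by
  induction h with
  | nil p => simpa using h'
  | cons n p q r' D d c hg _ ih =>
    have := Wk.cons _ _ _ _ _ _ _ hg (ih h')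
    rw [show n + 1 + m = n + m + 1 by omega, add_assoc d c c']
    exact this

private lemma Wk.prop (hMON : StMON) {n : ℕ} {p q : S} {c : Ch S 1} (h : Wk Q ρ n p q c) :
    c ∈ cin Q 1 ∧ bd 0 c = Finsupp.single (pt q) 1 - Finsupp.single (pt p) 1 := by
  induction h with
  | nil p => exact ⟨Submodule.zero_mem _, by simp⟩
  | cons n p q r D d c hg _ ih =>
    refine ⟨Submodule.add_mem _ (cin_mono hMON hg.sub hg.mem) ih.1, ?_⟩
    rw [map_add, hg.bdy, ih.2]
    abel

private lemma Wk.seq {n : ℕ} {p q : S} {c : Ch S 1} (h : Wk Q ρ n p q c) :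
    ∃ (x : ℕ → S) (α : ℕ → Set S) (d : ℕ → Ch S 1), x 0 = p ∧ x n = q ∧
      (∀ i < n, GA Q ρ (α i) (x i) (x (i + 1)) (d i)) ∧ c = ∑ i ∈ Finset.range n, d i := by
  induction h with
  | nil p => exact ⟨fun _ => p, fun _ => ∅, fun _ => 0, rfl, rfl, fun i hi => absurd hi (by omega), by simp⟩
  | cons n p q r D d c hg _ ih =>
    obtain ⟨x, α, e, h0, h1, h2, h3⟩ := ih
    refine ⟨fun k => Nat.casesOn k p x, fun k => Nat.casesOn k D α, fun k => Nat.casesOn k d e, rfl, h1, ?_, ?_⟩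
    · intro i hi
      cases i with
      | zero =>
        show GA Q ρ D p (x 0) d
        rw [h0]
        exact hg
      | succ i => exact h2 i (by omega)
    · rw [Finset.sum_range_succ', h3]
      exact add_comm _ _

private lemma sub_walk {n : ℕ} {x : ℕ → S} {α : ℕ → Set S} {d : ℕ → Ch S 1}
    (h : ∀ i < n, GA Q ρ (α i) (x i) (x (i + 1)) (d i)) {i j : ℕ} (hij : i ≤ j) (hj : j ≤ n) :
    Wk Q ρ (j - i) (x i) (x j) (∑ l ∈ Finset.Ico i j, d l) := by
  induction j, hij using Nat.le_induction with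
  | base => simpa using Wk.nil (Q := Q) (ρ := ρ) (x i)
  | succ j hij ih =>
    rw [Finset.sum_Ico_succ_top hij, show j + 1 - i = (j - i) + 1 by omega]
    exact (ih (by omega)).app (Wk.one (h j (by omega)))

private lemma arc_cpt (hARB : StARB) {D : Set S} {p q : S} (h : IsArc D p q ∨ (D = {p} ∧ p = q)) :
    IsCompact D ∧ p ∈ D ∧ q ∈ D := by
  rcases h with h | ⟨rfl, rfl⟩
  · have := hARB.1 S D p q h
    exact ⟨this.2.1, this.2.2.1, this.2.2.2.1⟩
  · exact ⟨isCompact_singleton, rfl, rfl⟩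

private lemma diam_sub (hARB : StARB) {D D' : Set S} {p q : S} (h : IsArc D p q ∨ (D = {p} ∧ p = q))
    (h' : D' ⊆ D) : Metric.diam D' ≤ Metric.diam D :=
  Metric.diam_mono h' (arc_cpt hARB h).1.isBounded

private lemma GA.cut (hARB : StARB) (hAC1 : StAC1) (hρ : 0 < ρ) {D : Set S} {p q v : S} {d : Ch S 1}
    (h : GA Q ρ D p q d) (hv : v ∈ D) :
    ∃ (D₁ D₂ : Set S) (d₁ d₂ : Ch S 1), D₁ ⊆ D ∧ D₂ ⊆ D ∧ GA Q ρ D₁ p v d₁ ∧ GA Q ρ D₂ v q d₂ := by
  have hpt : ∀ u ∈ D, GA Q ρ {u} u u 0 := fun u hu => ⟨Or.inr ⟨rfl, rfl⟩, singleton_subset_iff.2 (h.sub hu),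
    by simpa using hρ, Submodule.zero_mem _, by simp⟩
  by_cases hp : v = p
  · subst hp
    exact ⟨{v}, D, 0, d, singleton_subset_iff.2 hv, Subset.rfl, hpt v hv, h⟩
  by_cases hq : v = q
  · subst hq
    exact ⟨D, {v}, d, 0, Subset.rfl, singleton_subset_iff.2 hv, h, hpt v hv⟩
  rcases h.arc with ha | ⟨rfl, _⟩
  · obtain ⟨D₁, D₂, h1, h2, h3, -⟩ := hARB.2.1 S D p q v ha hv hp hq
    have s1 : D₁ ⊆ D := h3 ▸ subset_union_left
    have s2 : D₂ ⊆ D := h3 ▸ subset_union_right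
    obtain ⟨-, m1, b1⟩ := hAC1 S D₁ p v h1
    obtain ⟨-, m2, b2⟩ := hAC1 S D₂ v q h2
    exact ⟨D₁, D₂, dch D₁ p v, dch D₂ v q, s1, s2,
      ⟨Or.inl h1, s1.trans h.sub, lt_of_le_of_lt (diam_sub hARB h.arc s1) h.dia, m1, b1⟩,
      ⟨Or.inl h2, s2.trans h.sub, lt_of_le_of_lt (diam_sub hARB h.arc s2) h.dia, m2, b2⟩⟩
  · exact absurd hv hp

private lemma pair_adj (hARB : StARB) {A B : Set S} {p q r : S} (hA : IsArc A p q) (hB : IsArc B q r)
    (hp : p ∉ B) (hr : r ∉ A) :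
    ∃ (v : S) (A' B' : Set S), A' ⊆ A ∧ B' ⊆ B ∧ IsArc A' p v ∧ IsArc B' v r ∧ A' ∩ B = {v} := by
  have h1 := hARB.1 S A p q hA
  have h2 := hARB.1 S B q r hB
  obtain ⟨v, hvB, A', hA', h3, h4⟩ := hARB.2.2.2.1 S A B p q hA h2.2.1.isClosed hp ⟨q, h1.2.2.2.1, h2.2.2.1⟩
  have hvA : v ∈ A := hA' (by have : v ∈ A' ∩ B := by rw [h4]; rfl
                              exact this.1)
  have hvr : v ≠ r := fun h => hr (h ▸ hvA)
  by_cases hvq : v = q
  · subst hvq
    exact ⟨v, A', B, hA', Subset.rfl, h3, hB, h4⟩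
  · obtain ⟨D₁, D₂, -, h6, h7, -⟩ := hARB.2.1 S B q r v hB hvB hvq hvr
    exact ⟨v, A', D₂, hA', h7 ▸ subset_union_right, h3, h6, h4⟩

/-- the minimal closed walk gives a simple closed curve -/
private lemma main (hARB : StARB) (hAC1 : StAC1) (hWD : StWD) (hMON : StMON)
    [LocallyPathConnectedSpace S] [PathConnectedSpace S] (ω : S → Ch S 2 → ℤ) (V : Set S) (hG : GR S ω V)
    (a : S) (hQV : Q ⊆ V) (ha : a ∉ Q) (hρ : 0 < ρ) (hT : Tame ω Q a ρ)
    (hadd : ∀ z ∈ cin Q 1, ∀ z' ∈ cin Q 1, bd 0 z = 0 → bd 0 z' = 0 → W ω (z + z') a = W ω z a + W ω z' a)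
    (n : ℕ) (p₀ : S) (c₀ : Ch S 1) (hw : Wk Q ρ n p₀ p₀ c₀) (hw0 : W ω c₀ a ≠ 0)
    (hmin : ∀ m < n, ∀ (p : S) (c : Ch S 1), Wk Q ρ m p p c → W ω c a = 0) :
    ∃ J ⊆ Q, IsSCC J ∧ a ∈ Ins ω J := by
  classical
  obtain ⟨x, α, d, hx0, hxn, hga, hc0⟩ := hw.seq
  have hx : x n = x 0 := by rw [hx0, hxn]
  -- total
  have hcyc : c₀ ∈ cin Q 1 ∧ bd 0 c₀ = 0 := by
    have := hw.prop hMON
    exact ⟨this.1, by rw [this.2]; simp⟩
  -- change by a small cycle
  have hZ : ∀ z z' u : Ch S 1, ∀ C : Set S, z ∈ cin Q 1 → bd 0 z = 0 → u ∈ cin C 1 → bd 0 u = 0 → C ⊆ Q →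
      Metric.diam C < 4 * ρ → z' = z + u → z' ∈ cin Q 1 ∧ bd 0 z' = 0 ∧ W ω z' a = W ω z a := by
    intro z z' u C hz hz0 hu hu0 hC hd he
    have huQ : u ∈ cin Q 1 := cin_mono hMON hC hu
    refine ⟨he ▸ Submodule.add_mem _ hz huQ, by rw [he, map_add, hz0, hu0, add_zero], ?_⟩
    rw [he, hadd z hz u huQ hz0 hu0, hT C hC hd u hu hu0, add_zero]
  have hcp : ∀ i < n, IsCompact (α i) ∧ x i ∈ α i ∧ x (i + 1) ∈ α i := fun i hi => arc_cpt hARB (hga i hi).arc
  -- n ≥ 4
  have hn4 : 4 ≤ n := by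
    by_contra hlt
    have hU : ∀ m ≤ n, (⋃ i ∈ Finset.range m, α i) ⊆ Q ∧ (∑ i ∈ Finset.range m, d i) ∈ cin (⋃ i ∈ Finset.range m, α i) 1 ∧
        Metric.diam (⋃ i ∈ Finset.range m, α i) ≤ m * ρ := by
      intro m
      induction m with
      | zero => intro _; simp
      | succ m ih =>
        intro hm
        obtain ⟨i1, i2, i3⟩ := ih (by omega)
        have hg := hga m (by omega)
        have hse : (⋃ i ∈ Finset.range (m + 1), α i) = (⋃ i ∈ Finset.range m, α i) ∪ α m := by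
          rw [Finset.range_add_one, Finset.set_biUnion_insert, union_comm]
        rw [hse]
        refine ⟨union_subset i1 hg.sub, ?_, ?_⟩
        · rw [Finset.sum_range_succ]
          exact Submodule.add_mem _ (cin_mono hMON subset_union_left i2) (cin_mono hMON subset_union_right hg.mem)
        · rcases Nat.eq_zero_or_pos m with h0 | h0
          · subst h0
            simpa using hg.dia.le
          · have hne : ((⋃ i ∈ Finset.range m, α i) ∩ α m).Nonempty := by
              refine ⟨x m, ?_, (hcp m (by omega)).2.1⟩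
              rw [mem_iUnion₂]
              refine ⟨m - 1, Finset.mem_range.2 (by omega), ?_⟩
              have := (hcp (m - 1) (by omega)).2.2
              rwa [show m - 1 + 1 = m by omega] at this
            have h1 := Metric.diam_union' hne
            have h2 := hg.dia
            push_cast
            linarith
    obtain ⟨h1, h2, h3⟩ := hU n le_rfl
    apply hw0
    rw [hc0]
    refine hT _ h1 (lt_of_le_of_lt h3 ?_) _ h2 (hc0 ▸ hcyc.2)
    have : (n : ℝ) ≤ 3 := by exact_mod_cast (by omega : n ≤ 3)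
    nlinarith
  -- non-neighbours are disjoint
  have hdis : ∀ i j, i + 2 ≤ j → j < n → j + 2 ≤ n + i → ∀ v, v ∈ α i → v ∉ α j := by
    intro i j hij hj hjn v hvi hvj
    obtain ⟨P₁, P₂, p₁, p₂, hP1, hP2, gP1, gP2⟩ := (hga i (by omega)).cut hARB hAC1 hρ hvi
    obtain ⟨R₁, R₂, r₁, r₂, hR1, hR2, gR1, gR2⟩ := (hga j (by omega)).cut hARB hAC1 hρ hvj
    have w1 := ((Wk.one gP2).app (sub_walk hga (show i + 1 ≤ j by omega) (by omega))).app (Wk.one gR1)
    have w2 := (((sub_walk hga (Nat.zero_le i) (by omega)).app (Wk.one gP1)).app (Wk.one gR2)).app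
      (sub_walk hga (show j + 1 ≤ n by omega) le_rfl)
    rw [hx] at w2
    have z1 := hmin _ (by omega) _ _ w1
    have z2 := hmin _ (by omega) _ _ w2
    have c1 := w1.prop hMON
    have c2 := w2.prop hMON
    have gi := hga i (by omega)
    have gj := hga j (by omega)
    have s1 : ∑ l ∈ Finset.range n, d l = ∑ l ∈ Finset.Ico 0 i, d l + d i + ∑ l ∈ Finset.Ico (i + 1) j, d l + d j
        + ∑ l ∈ Finset.Ico (j + 1) n, d l := by
      rw [Finset.range_eq_Ico, ← Finset.sum_Ico_consecutive _ (Nat.zero_le i) (show i ≤ n by omega),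
        Finset.sum_eq_sum_Ico_succ_bot (show i < n by omega),
        ← Finset.sum_Ico_consecutive _ (show i + 1 ≤ j by omega) (show j ≤ n by omega),
        Finset.sum_eq_sum_Ico_succ_bot (show j < n by omega)]
      abel
    set c1' := p₂ + ∑ l ∈ Finset.Ico (i + 1) j, d l + r₁ with hc1'
    set c2' := ∑ l ∈ Finset.Ico 0 i, d l + p₁ + r₂ + ∑ l ∈ Finset.Ico (j + 1) n, d l with hc2'
    have b1 : bd 0 c1' = 0 := by rw [c1.2]; simp
    have b2 : bd 0 c2' = 0 := by rw [c2.2]; simp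
    have hs : W ω (c1' + c2') a = 0 := by rw [hadd _ c1.1 _ c2.1 b1 b2, z1, z2]; rfl
    have k1 := hZ (c1' + c2') (c1' + c2' + (d i - p₁ - p₂)) (d i - p₁ - p₂) (α i)
      (Submodule.add_mem _ c1.1 c2.1) (by rw [map_add, b1, b2, add_zero])
      (Submodule.sub_mem _ (Submodule.sub_mem _ gi.mem (cin_mono hMON hP1 gP1.mem)) (cin_mono hMON hP2 gP2.mem))
      (by rw [map_sub, map_sub, gi.bdy, gP1.bdy, gP2.bdy]; abel) gi.sub (by linarith [gi.dia]) rfl
    have k2 := hZ (c1' + c2' + (d i - p₁ - p₂)) c₀ (d j - r₁ - r₂) (α j) k1.1 k1.2.1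
      (Submodule.sub_mem _ (Submodule.sub_mem _ gj.mem (cin_mono hMON hR1 gR1.mem)) (cin_mono hMON hR2 gR2.mem))
      (by rw [map_sub, map_sub, gj.bdy, gR1.bdy, gR2.bdy]; abel) gj.sub (by linarith [gj.dia])
      (by rw [hc0, s1, hc1', hc2']; abel)
    exact hw0 (by rw [k2.2.2, k1.2.2, hs])
  -- no degenerate arcs
  have harc : ∀ i < n, IsArc (α i) (x i) (x (i + 1)) := by
    intro i hi
    rcases (hga i hi).arc with h | ⟨h1, h2⟩
    · exact h
    exfalso
    have w1 := sub_walk hga (Nat.zero_le i) (by omega)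
    have w2 := sub_walk hga (show i + 1 ≤ n by omega) le_rfl
    rw [← h2, hx] at w2
    have w := w1.app w2
    have z := hmin _ (by omega) _ _ w
    have c := w.prop hMON
    have gi := hga i hi
    have k := hZ _ c₀ (d i) (α i) c.1 (by rw [c.2]; simp) gi.mem (by rw [gi.bdy, ← h2, sub_self]) gi.sub
      (by linarith [gi.dia]) (by
        rw [hc0, Finset.range_eq_Ico, ← Finset.sum_Ico_consecutive _ (Nat.zero_le i) (show i ≤ n by omega),
          Finset.sum_eq_sum_Ico_succ_bot (show i < n by omega)]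
        abel)
    exact hw0 (by rw [k.2.2, z])
  have hdch : ∀ (D : Set S) (p q : S), IsArc D p q → dch D p q ∈ cin D 1 ∧
      bd 0 (dch D p q) = Finsupp.single (pt q) 1 - Finsupp.single (pt p) 1 := fun D p q h => (hAC1 S D p q h).2
  have hdd : ∀ i < n, ∀ j < n, (α i ∩ α j).Nonempty → Metric.diam (α i ∪ α j) < 4 * ρ := by
    intro i hi j hj hne
    have := Metric.diam_union' hne
    have h1 := (hga i hi).dia
    have h2 := (hga j hj).dia
    linarith
  -- the state
  have hst : ∀ k, 1 ≤ k → k < n → ∃ (v y : S) (A B R : Set S) (dA dB dR : Ch S 1),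
      IsArc A (x 0) v ∧ A ⊆ α 0 ∧ A ∩ α 1 = {v} ∧ (IsArc B v y ∨ (B = {y} ∧ v = y)) ∧ B ∩ α k = {y} ∧
      (∀ u ∈ B, u = v ∨ ∃ l, 1 ≤ l ∧ l < k ∧ u ∈ α l) ∧ B ⊆ Q ∧ IsArc R y (x (k + 1)) ∧ R ⊆ α k ∧
      dA ∈ cin A 1 ∧ bd 0 dA = Finsupp.single (pt v) 1 - Finsupp.single (pt (x 0)) 1 ∧
      dB ∈ cin B 1 ∧ bd 0 dB = Finsupp.single (pt y) 1 - Finsupp.single (pt v) 1 ∧
      dR ∈ cin R 1 ∧ bd 0 dR = Finsupp.single (pt (x (k + 1))) 1 - Finsupp.single (pt y) 1 ∧
      dA + dB + dR + ∑ l ∈ Finset.Ico (k + 1) n, d l ∈ cin Q 1 ∧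
      bd 0 (dA + dB + dR + ∑ l ∈ Finset.Ico (k + 1) n, d l) = 0 ∧
      W ω (dA + dB + dR + ∑ l ∈ Finset.Ico (k + 1) n, d l) a = W ω c₀ a := by
    intro k hk
    induction k, hk using Nat.le_induction with
    | base =>
      intro _
      have h01 : x 0 ∉ α 1 := by
        have h1 := (hcp (n - 1) (by omega)).2.2
        rw [show n - 1 + 1 = n by omega, hx] at h1
        intro h2
        exact hdis 1 (n - 1) (by omega) (by omega) (by omega) _ h2 h1
      have h02 : x (1 + 1) ∉ α 0 := fun h2 => hdis 0 2 (by omega) (by omega) (by omega) _ h2 (hcp 2 (by omega)).2.1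
      obtain ⟨v, A, R, hA, hR, aA, aR, hAR⟩ := pair_adj hARB (harc 0 (by omega)) (harc 1 (by omega)) h01 h02
      have hv : v ∈ α 1 := by
        have : v ∈ A ∩ α 1 := by rw [hAR]; rfl
        exact this.2
      have hv0 : v ∈ α 0 := by
        have : v ∈ A ∩ α 1 := by rw [hAR]; rfl
        exact hA this.1
      have e1 := hdch _ _ _ aA
      have e2 := hdch _ _ _ aR
      have g0 := hga 0 (by omega)
      have g1 := hga 1 (by omega)
      refine ⟨v, v, A, {v}, R, dch A (x 0) v, 0, dch R v (x (1 + 1)), aA, hA, hAR, Or.inr ⟨rfl, rfl⟩,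
        inter_eq_left.2 (singleton_subset_iff.2 hv), fun u hu => Or.inl hu, singleton_subset_iff.2 (g1.sub hv), aR, hR, e1.1, e1.2,
        Submodule.zero_mem _, by simp, e2.1, e2.2, ?_⟩
      refine hZ c₀ _ (dch A (x 0) v + dch R v (x (1 + 1)) - d 0 - d 1) (α 0 ∪ α 1) hcyc.1 hcyc.2 ?_ ?_
        (union_subset g0.sub g1.sub) (hdd 0 (by omega) 1 (by omega) ⟨v, hv0, hv⟩) ?_
      · exact Submodule.sub_mem _ (Submodule.sub_mem _ (Submodule.add_mem _
          (cin_mono hMON (hA.trans subset_union_left) e1.1) (cin_mono hMON (hR.trans subset_union_right) e2.1))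
          (cin_mono hMON subset_union_left g0.mem)) (cin_mono hMON subset_union_right g1.mem)
      · rw [map_sub, map_sub, map_add, e1.2, e2.2, g0.bdy, g1.bdy]
        abel
      · rw [hc0, Finset.range_eq_Ico, Finset.sum_eq_sum_Ico_succ_bot (show 0 < n by omega),
          Finset.sum_eq_sum_Ico_succ_bot (show 0 + 1 < n by omega)]
        abel
    | succ k hk ih =>
      intro hkn
      obtain ⟨v, y, A, B, R, dA, dB, dR, aA, hA, hA1, aB, hBk, hBl, hBQ, aR, hR, mA, bA, mB, bB, mR, bR, tQ, tb, tW⟩ :=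
        ih (by omega)
      have hvA : v ∈ A ∩ α 1 := by rw [hA1]; rfl
      have hyB : y ∈ B ∩ α k := by rw [hBk]; rfl
      have hBe : ∀ u ∈ B, u ∉ α (k + 1) := by
        intro u hu h1
        rcases hBl u hu with rfl | ⟨l, l1, l2, l3⟩
        · by_cases hc : k + 1 + 2 ≤ n
          · exact hdis 0 (k + 1) (by omega) (by omega) (by omega) _ (hA hvA.1) h1
          · exact hdis 1 (k + 1) (by omega) (by omega) (by omega) _ hvA.2 h1
        · exact hdis l (k + 1) (by omega) (by omega) (by omega) _ l3 h1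
      have hxk : x (k + 1 + 1) ∉ R := by
        intro h1
        by_cases hc : k + 2 = n
        · rw [show k + 1 + 1 = n by omega, hx] at h1
          exact hdis 0 k (by omega) (by omega) (by omega) _ (hcp 0 (by omega)).2.1 (hR h1)
        · exact hdis k (k + 2) (by omega) (by omega) (by omega) _ (hR h1) (hcp (k + 2) (by omega)).2.1
      obtain ⟨y', R₁, R', hR1, hR', aR1, aR', hi⟩ := pair_adj hARB aR (harc (k + 1) (by omega)) (hBe y hyB.1) hxk
      have hy' : y' ∈ R₁ ∩ α (k + 1) := by rw [hi]; rfl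
      have hBR : B ∩ R₁ = {y} := by
        apply Subset.antisymm
        · rw [← hBk]
          exact inter_subset_inter_right _ (hR1.trans hR)
        · rw [singleton_subset_iff]
          exact ⟨hyB.1, (hARB.1 S R₁ y y' aR1).2.2.1⟩
      have aB' : IsArc (B ∪ R₁) v y' := by
        rcases aB with aB | ⟨h1, h2⟩
        · exact hARB.2.2.1 S B R₁ v y' y aB aR1 hBR
        · have : B ∪ R₁ = R₁ := by
            rw [h1]
            exact union_eq_self_of_subset_left (singleton_subset_iff.2 (hARB.1 S R₁ y y' aR1).2.2.1)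
          rw [this, h2]
          exact aR1
      have e1 := hdch _ _ _ aR1
      have e2 := hdch _ _ _ aR'
      have g0 := hga k (by omega)
      have g1 := hga (k + 1) (by omega)
      refine ⟨v, y', A, B ∪ R₁, R', dA, dB + dch R₁ y y', dch R' y' (x (k + 1 + 1)), aA, hA, hA1, Or.inl aB', ?_, ?_,
        union_subset hBQ ((hR1.trans hR).trans g0.sub), aR', hR', mA, bA,
        Submodule.add_mem _ (cin_mono hMON subset_union_left mB) (cin_mono hMON subset_union_right e1.1), ?_, e2.1, e2.2, ?_⟩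
      · rw [union_inter_distrib_right, hi]
        apply Subset.antisymm
        · rintro u (⟨h1, h2⟩ | h1)
          · exact absurd h2 (hBe u h1)
          · exact h1
        · exact subset_union_right
      · rintro u (hu | hu)
        · rcases hBl u hu with h | ⟨l, l1, l2, l3⟩
          · exact Or.inl h
          · exact Or.inr ⟨l, l1, by omega, l3⟩
        · exact Or.inr ⟨k, by omega, by omega, hR (hR1 hu)⟩
      · rw [map_add, bB, e1.2]
        abel
      · have key := hZ (dA + dB + dR + ∑ l ∈ Finset.Ico (k + 1) n, d l)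
          (dA + (dB + dch R₁ y y') + dch R' y' (x (k + 1 + 1)) + ∑ l ∈ Finset.Ico (k + 1 + 1) n, d l)
          (dch R₁ y y' + dch R' y' (x (k + 1 + 1)) - dR - d (k + 1)) (α k ∪ α (k + 1)) tQ tb
          (Submodule.sub_mem _ (Submodule.sub_mem _ (Submodule.add_mem _
            (cin_mono hMON ((hR1.trans hR).trans subset_union_left) e1.1)
            (cin_mono hMON (hR'.trans subset_union_right) e2.1))
            (cin_mono hMON (hR.trans subset_union_left) mR)) (cin_mono hMON subset_union_right g1.mem))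
          (by rw [map_sub, map_sub, map_add, e1.2, e2.2, bR, g1.bdy]; abel)
          (union_subset g0.sub g1.sub)
          (hdd k (by omega) (k + 1) (by omega) ⟨x (k + 1), (hcp k (by omega)).2.2, (hcp (k + 1) (by omega)).2.1⟩)
          (by rw [Finset.sum_eq_sum_Ico_succ_bot (show k + 1 < n by omega)]; abel)
        exact ⟨key.1, key.2.1, key.2.2.trans tW⟩
  -- the last step
  obtain ⟨v, y, A, B, R, dA, dB, dR, aA, hA, hA1, aB, hBk, hBl, hBQ, aR, hR, mA, bA, mB, bB, mR, bR, tQ, tb, tW⟩ :=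
    hst (n - 1) (by omega) (by omega)
  rw [show n - 1 + 1 = n by omega] at aR bR tQ tb tW
  rw [Finset.Ico_self, Finset.sum_empty, add_zero] at tQ tb tW
  rw [hx] at aR bR
  have hvA : v ∈ A ∩ α 1 := by rw [hA1]; rfl
  have hyB : y ∈ B ∩ α (n - 1) := by rw [hBk]; rfl
  have hvn : v ∉ α (n - 1) := hdis 1 (n - 1) (by omega) (by omega) (by omega) _ hvA.2
  have hvy : v ≠ y := fun h => hvn (h ▸ hyB.2)
  have aB' : IsArc B v y := by
    rcases aB with h | ⟨-, h⟩
    · exact h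
    · exact absurd h hvy
  have hAB : A ∩ B = {v} := by
    apply Subset.antisymm
    · rintro u ⟨h1, h2⟩
      rcases hBl u h2 with h | ⟨l, l1, l2, l3⟩
      · exact h
      · by_cases hl : l = 1
        · subst hl
          rw [← hA1]
          exact ⟨h1, l3⟩
        · exact absurd l3 (hdis 0 l (by omega) (by omega) (by omega) _ (hA h1))
    · rw [singleton_subset_iff]
      exact ⟨hvA.1, (hARB.1 S B v y aB').2.2.1⟩
  have hyA : y ∉ A := fun h => hvy (by
    have : y ∈ A ∩ B := ⟨h, hyB.1⟩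
    rw [hAB] at this
    exact this.symm)
  obtain ⟨z, R₁, A', hR1, hA', aR1, aA', hi⟩ := pair_adj hARB aR aA hyA (fun h => hvn (hR h))
  have hz : z ∈ R₁ ∩ A := by rw [hi]; rfl
  have e1 := hdch _ _ _ aR1
  have e2 := hdch _ _ _ aA'
  have g0 := hga 0 (by omega)
  have g1 := hga (n - 1) (by omega)
  have hBR : B ∩ R₁ = {y} := by
    apply Subset.antisymm
    · rw [← hBk]
      exact inter_subset_inter_right _ (hR1.trans hR)
    · rw [singleton_subset_iff]
      exact ⟨hyB.1, (hARB.1 S R₁ y z aR1).2.2.1⟩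
  have aD : IsArc (B ∪ R₁) v z := hARB.2.2.1 S B R₁ v z y aB' aR1 hBR
  have aD' : IsArc (B ∪ R₁) z v := (hARB.1 S (B ∪ R₁) v z aD).1
  have hA'Q : A' ⊆ Q := (hA'.trans hA).trans g0.sub
  have hDQ : B ∪ R₁ ⊆ Q := union_subset hBQ ((hR1.trans hR).trans g1.sub)
  have hsp : Spl (A' ∪ (B ∪ R₁)) z v A' (B ∪ R₁) := by
    refine ⟨aA', aD', ?_, rfl⟩
    apply Subset.antisymm
    · rintro u ⟨h1, h2 | h2⟩
      · have : u ∈ A ∩ B := ⟨hA' h1, h2⟩
        rw [hAB] at this
        exact Or.inr this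
      · have : u ∈ R₁ ∩ A := ⟨h2, hA' h1⟩
        rw [hi] at this
        exact Or.inl this
    · rintro u (rfl | rfl)
      · exact ⟨(hARB.1 S A' u v aA').2.2.1, Or.inr hz.1⟩
      · exact ⟨(hARB.1 S A' z u aA').2.2.2.1, Or.inl (hARB.1 S B u y aB').2.2.1⟩
  have key := hZ (dA + dB + dR) (dch A' z v + dB + dch R₁ y z) (dch A' z v + dch R₁ y z - dA - dR)
    (α 0 ∪ α (n - 1)) tQ tb
    (Submodule.sub_mem _ (Submodule.sub_mem _ (Submodule.add_mem _
      (cin_mono hMON ((hA'.trans hA).trans subset_union_left) e2.1)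
      (cin_mono hMON ((hR1.trans hR).trans subset_union_right) e1.1))
      (cin_mono hMON (hA.trans subset_union_left) mA)) (cin_mono hMON (hR.trans subset_union_right) mR))
    (by rw [map_sub, map_sub, map_add, e1.2, e2.2, bA, bR]; abel)
    (union_subset g0.sub g1.sub)
    (hdd 0 (by omega) (n - 1) (by omega) ⟨x 0, (hcp 0 (by omega)).2.1, by
      have := (hcp (n - 1) (by omega)).2.2
      rwa [show n - 1 + 1 = n by omega, hx] at this⟩)
    (by abel)
  have hwd := (hWD S ω V hG).1 A' (B ∪ R₁) z v aA' aD' (hA'Q.trans hQV) (hDQ.trans hQV) (dch A' z v) e2.1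
    (-(dB + dch R₁ y z)) (Submodule.neg_mem _ (Submodule.add_mem _ (cin_mono hMON subset_union_left mB)
      (cin_mono hMON subset_union_right e1.1))) e2.2 (by rw [map_neg, map_add, bB, e1.2]; abel) a
    (fun h => ha (hA'Q h)) (fun h => ha (hDQ h))
  rw [sub_neg_eq_add, ← add_assoc, key.2.2, tW] at hwd
  refine ⟨A' ∪ (B ∪ R₁), union_subset hA'Q hDQ, ⟨z, v, A', B ∪ R₁, hsp⟩, ?_, z, v, A', B ∪ R₁, hsp, ?_⟩
  · rintro (h | h)
    · exact ha (hA'Q h)
    · exact ha (hDQ h)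
  · rw [← hwd]
    exact hw0

end Sim

/-- MODULE SIM -/
theorem hSIM (hARB : StARB) (hWIN : StWIN) (hAC1 : StAC1) (hWD : StWD) (hMON : StMON) (_hSDA : StSDA) : StSIM := by
  classical
  intro S _ _ _ ω V hG Q a ρ hQ hQV ha hρ hT n x α hn hch hw0
  have hadd : ∀ z ∈ cin Q 1, ∀ z' ∈ cin Q 1, bd 0 z = 0 → bd 0 z' = 0 → W ω (z + z') a = W ω z a + W ω z' a := by
    intro z hz z' hz' h0 h0'
    have hQa : Q ⊆ ({a} : Set S)ᶜ := fun u hu h => ha (by rw [← (mem_singleton_iff.1 h)]; exact hu)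
    exact ((hWIN S ω hG.ws hG.nc).2.1 z z' a (hG.bv z ((hMON S).1 Q V 1 hQV hz) h0)
      (hG.bv z' ((hMON S).1 Q V 1 hQV hz') h0') ((hMON S).1 Q _ 1 hQa hz) ((hMON S).1 Q _ 1 hQa hz')).1
  have hga : ∀ i < n, Sim.GA Q ρ (α i) (x i) (x (i + 1)) (dch (α i) (x i) (x (i + 1))) := by
    intro i hi
    obtain ⟨h1, h2, h3⟩ := hch.2 i hi
    have := hAC1 S (α i) (x i) (x (i + 1)) h1
    exact ⟨Or.inl h1, h2, h3, this.2.1, this.2.2⟩
  have hex : ∃ m : ℕ, ∃ (p : S) (c : Ch S 1), Sim.Wk Q ρ m p p c ∧ W ω c a ≠ 0 := by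
    have := Sim.sub_walk hga (Nat.zero_le n) le_rfl
    rw [hch.1] at this
    refine ⟨_, _, _, this, ?_⟩
    rw [← Finset.range_eq_Ico]
    exact hw0
  obtain ⟨p, c, h1, h2⟩ := Nat.find_spec hex
  refine Sim.main hARB hAC1 hWD hMON ω V hG a hQV ha hρ hT hadd (Nat.find hex) p c h1 h2 ?_
  intro m hm q c' hc'
  by_contra h
  exact Nat.find_min hex hm ⟨q, c', hc', h⟩

end Pool.Agent.Helper2.TW
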