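import Pool.Agent.Helper54.PT.DefsD

set_option autoImplicit false

namespace Pool.Agent.Helper54.PT

open Polynomial Finset Filter Topology Module Pool.Agent.Helper47.BSD IntermediateField

universe u

section C2a

variable {k : Type u} [NontriviallyNormedField k] [IsUltrametricDist k] [CompleteSpace k]

theorem c2a_nextCoeff_le {K : Type u} [Field K] [Algebra k K] [FiniteDimensional k K] (y : K) :
    ‖(minpoly k y).nextCoeff‖ ≤ specAbs k K y := by
  have hy : IsIntegral k y := Algebra.IsIntegral.isIntegral y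
  have hd : 0 < (minpoly k y).natDegree := minpoly.natDegree_pos hy
  rw [nextCoeff_of_natDegree_pos hd]
  have h1 : spectralValueTerms (minpoly k y) ((minpoly k y).natDegree - 1) =
      ‖(minpoly k y).coeff ((minpoly k y).natDegree - 1)‖ := by
    rw [spectralValueTerms_of_lt_natDegree _ (by omega), Nat.cast_sub hd]
    simp
  rw [← h1]
  exact le_ciSup (spectralValueTerms_bddAbove (minpoly k y)) _

omit [CompleteSpace k] in
theorem c2a_natCast_le (m : ℕ) : ‖(m : k)‖ ≤ 1 := IsUltrametricDist.norm_natCast_le_one k m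

theorem c2a_trace_le {K : Type u} [Field K] [Algebra k K] [FiniteDimensional k K] (y : K) :
    ‖Algebra.trace k K y‖ ≤ specAbs k K y := by
  rw [trace_eq_finrank_mul_minpoly_nextCoeff, norm_mul, norm_neg]
  calc _ ≤ 1 * specAbs k K y := by
        apply mul_le_mul (c2a_natCast_le _) (c2a_nextCoeff_le y) (norm_nonneg _) zero_le_one
    _ = _ := one_mul _

theorem c2a_sum_le {K : Type u} [Field K] {A : AbsoluteValue K ℝ}
    (hA : ∀ x y, A (x + y) ≤ max (A x) (A y)) {ι : Type} (s : Finset ι) (hs : s.Nonempty)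
    (g : ι → K) : ∃ j ∈ s, A (∑ i ∈ s, g i) ≤ A (g j) := by
  classical
  induction hs using Finset.Nonempty.cons_induction with
  | singleton a => exact ⟨a, by simp, by simp⟩
  | cons a s ha hs ih =>
    obtain ⟨j, hj, hle⟩ := ih
    rw [sum_cons]
    rcases le_total (A (∑ i ∈ s, g i)) (A (g a)) with h | h
    · exact ⟨a, mem_cons_self _ _, (hA _ _).trans (max_le le_rfl h)⟩
    · exact ⟨j, mem_cons_of_mem hj, (hA _ _).trans (max_le (h.trans hle) hle)⟩

/-- The formula for an element of `k(ζ)` through traces. -/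
theorem c2a_formula {K : Type u} [Field K] [Algebra k K] [FiniteDimensional k K] (ζ : K)
    (N : ℕ) (hN0 : N ≠ 0) (hN : (N : k) ≠ 0) (c : k) (hc : c ≠ 0)
    (hζ : ζ ^ N = algebraMap k K c) (pb : PowerBasis k K) (hpb : pb.gen = ζ) (x : K) :
    (N : K) * x = ∑ j ∈ range N, ζ ^ j * algebraMap k K (Algebra.trace k K (x * (ζ⁻¹) ^ j)) := by
  have hζ0 : ζ ≠ 0 := by
    rintro rfl
    rw [zero_pow hN0] at hζ
    exact hc ((map_eq_zero _).1 hζ.symm)
  have hsep : IsSeparable k ζ := by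
    have h1 : (X ^ N - C c : k[X]).Separable := separable_X_pow_sub_C c hN hc
    refine h1.of_dvd (minpoly.dvd k ζ ?_)
    simp [hζ]
  have htop : k⟮ζ⟯ = ⊤ := by
    rw [← hpb]
    exact adjoin_eq_top_of_algebra k _ pb.adjoin_gen_eq_top
  have hsepK : Algebra.IsSeparable k K := by
    have h2 : Algebra.IsSeparable k k⟮ζ⟯ := (isSeparable_adjoin_simple_iff_isSeparable k K).2 hsep
    rw [htop] at h2
    exact AlgEquiv.Algebra.isSeparable (topEquiv (F := k) (E := K))
  let E := AlgebraicClosure K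
  let i0 : K →ₐ[k] E := IsScalarTower.toAlgHom k K E
  have hinj : Function.Injective (algebraMap K E) := (algebraMap K E).injective
  apply hinj
  rw [map_mul, map_natCast, map_sum]
  have h3 : ∀ j, algebraMap K E (ζ ^ j * algebraMap k K (Algebra.trace k K (x * (ζ⁻¹) ^ j))) =
      ∑ σ : K →ₐ[k] E, σ x * ((i0 ζ) * (σ ζ)⁻¹) ^ j := by
    intro j
    rw [map_mul, ← IsScalarTower.algebraMap_apply k K E, trace_eq_sum_embeddings E, mul_sum]
    apply sum_congr rfl
    intro σ _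
    rw [map_mul, map_pow σ, map_inv₀, mul_pow, map_pow]
    show i0 ζ ^ j * _ = _
    ring
  simp_rw [h3]
  rw [sum_comm, Fintype.sum_eq_single i0]
  · have : i0 ζ ≠ 0 := by
      rw [Ne, map_eq_zero]; exact hζ0
    rw [mul_inv_cancel₀ this]
    simp only [one_pow, mul_one, sum_const, card_range, nsmul_eq_mul]
    rfl
  · intro σ hσ
    rw [← mul_sum]
    have hne : σ ζ ≠ i0 ζ := by
      intro h
      apply hσ
      apply pb.algHom_ext
      rw [hpb]
      exact h
    have hσ0 : σ ζ ≠ 0 := by rw [Ne, map_eq_zero]; exact hζ0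
    have hq : i0 ζ * (σ ζ)⁻¹ ≠ 1 := by
      intro h
      apply hne
      exact ((mul_inv_eq_one₀ hσ0).1 h).symm
    have hqN : (i0 ζ * (σ ζ)⁻¹) ^ N = 1 := by
      rw [mul_pow, inv_pow, ← map_pow, ← map_pow, hζ, AlgHom.commutes, AlgHom.commutes]
      apply mul_inv_cancel₀
      rw [Ne, map_eq_zero]
      exact hc
    have hgeo : ∑ j ∈ range N, (i0 ζ * (σ ζ)⁻¹) ^ j = 0 := by
      have := geom_sum_eq hq N
      rw [this, hqN, sub_self, zero_div]
    rw [hgeo, mul_zero]

/-- C2a: the value group of an extension generated by a root of a unit -/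
theorem value_group_adjoin {L : Type u} [Field L] [Algebra k L] [FiniteDimensional k L] (ζ : L)
    (N : ℕ) (hN0 : N ≠ 0) (hN : ‖(N : k)‖ = 1) (c : k) (hc : ‖c‖ = 1) (hζ : ζ ^ N = algebraMap k L c)
    (x : L) (hx : x ∈ IntermediateField.adjoin k {ζ}) (hx0 : x ≠ 0) :
    ∃ y : k, y ≠ 0 ∧ specAbs k L x = ‖y‖ := by
  set x' : k⟮ζ⟯ := ⟨x, hx⟩ with hx'
  set ζ' : k⟮ζ⟯ := AdjoinSimple.gen k ζ with hζ'
  have hN' : (N : k) ≠ 0 := by
    intro h
    rw [h, norm_zero] at hN
    exact zero_ne_one hN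
  have hc' : c ≠ 0 := by
    rintro rfl
    rw [norm_zero] at hc
    exact zero_ne_one hc
  have hζ1 : ζ' ^ N = algebraMap k k⟮ζ⟯ c := by
    apply Subtype.ext
    exact hζ
  have hint : IsIntegral k ζ := Algebra.IsIntegral.isIntegral ζ
  have hx1 : specAbs k L x = specAbs k k⟮ζ⟯ x' := by
    show spectralValue (minpoly k x) = spectralValue (minpoly k x')
    rw [minpoly_eq x']
  have hx0' : x' ≠ 0 := by
    intro h
    apply hx0
    exact congrArg Subtype.val h
  have hform := c2a_formula ζ' N hN0 hN' c hc' hζ1 (adjoin.powerBasis hint)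
    (adjoin.powerBasis_gen hint) x'
  have hζn : specAbs k k⟮ζ⟯ ζ' = 1 := by
    have h1 : specAbs k k⟮ζ⟯ ζ' ^ N = 1 := by
      rw [← map_pow, hζ1, specAbs_algebraMap, hc]
    exact (pow_eq_one_iff_of_nonneg ((specAbs k k⟮ζ⟯).nonneg _) hN0).1 h1
  obtain ⟨j, hj, hle⟩ := c2a_sum_le (A := specAbs k k⟮ζ⟯) specAbs_add_le (range N)
    (nonempty_range_iff.2 hN0)
    (fun j => ζ' ^ j * algebraMap k k⟮ζ⟯ (Algebra.trace k k⟮ζ⟯ (x' * (ζ'⁻¹) ^ j)))
  have hNx : specAbs k k⟮ζ⟯ ((N : k⟮ζ⟯) * x') = specAbs k k⟮ζ⟯ x' := by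
    rw [map_mul, ← map_natCast (algebraMap k k⟮ζ⟯), specAbs_algebraMap, hN, one_mul]
  rw [← hform, hNx, map_mul, map_pow, hζn, one_pow, one_mul, specAbs_algebraMap] at hle
  have hle2 : ‖Algebra.trace k k⟮ζ⟯ (x' * (ζ'⁻¹) ^ j)‖ ≤ specAbs k k⟮ζ⟯ x' := by
    refine (c2a_trace_le _).trans (le_of_eq ?_)
    rw [map_mul, map_pow, map_inv₀, hζn, inv_one, one_pow, mul_one]
  have heq := le_antisymm hle hle2
  refine ⟨Algebra.trace k k⟮ζ⟯ (x' * (ζ'⁻¹) ^ j), ?_, ?_⟩
  · intro h0
    rw [h0, norm_zero] at heq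
    exact hx0' ((specAbs k k⟮ζ⟯).eq_zero.1 heq)
  · rw [hx1, heq]

end C2a

end Pool.Agent.Helper54.PT
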